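import Pool.Agent.H.MP_7b5b6d_co.A

set_option autoImplicit false

namespace Pool.Agent.H.MP_d14d18_co

open Finset Pool.Agent.H.MP_7b5b6d_co

variable {W : Type*}

def Invo (σ : ℕ → W → W) : Prop := ∀ c x, σ c (σ c x) = x

open Classical in
noncomputable def mu (C : Finset ℕ) (σ : ℕ → W → W) (x y : W) : ℕ :=
  (C.filter fun c => σ c x = y).card

def Rel (C : Finset ℕ) (σ τ : ℕ → W → W) : Prop :=
  (∀ j, j ∉ C → τ j = σ j) ∧ ∀ x y, mu C τ x y = mu C σ x y

def ML (C : Finset ℕ) (σ : ℕ → W → W) (N : Finset W) (L : W → Finset ℕ) : Prop :=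
  ∀ u ∈ N, L u ⊆ C ∧ ∀ i ∈ L u, σ i u = u

lemma Rel.refl (C : Finset ℕ) (σ : ℕ → W → W) : Rel C σ σ := ⟨fun _ _ => rfl, fun _ _ => rfl⟩

lemma Rel.trans {C : Finset ℕ} {σ τ ρ : ℕ → W → W} (h1 : Rel C σ τ) (h2 : Rel C τ ρ) :
    Rel C σ ρ :=
  ⟨fun j hj => (h2.1 j hj).trans (h1.1 j hj), fun x y => (h2.2 x y).trans (h1.2 x y)⟩

lemma mu_split {C' C : Finset ℕ} (h : C' ⊆ C) (σ : ℕ → W → W) (x y : W) :
    mu C σ x y = mu C' σ x y + mu (C \ C') σ x y := by
  classical
  unfold mu
  rw [← Finset.card_union_of_disjoint, ← Finset.filter_union, Finset.union_sdiff_of_subset h]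
  exact Finset.disjoint_filter_filter Finset.disjoint_sdiff

lemma Rel.mono {C' C : Finset ℕ} (h : C' ⊆ C) {σ τ : ℕ → W → W} (h1 : Rel C' σ τ) :
    Rel C σ τ := by
  classical
  refine ⟨fun j hj => h1.1 j fun h' => hj (h h'), fun x y => ?_⟩
  rw [mu_split h, mu_split h σ, h1.2]
  congr 1
  unfold mu
  congr 1
  apply Finset.filter_congr
  intro c hc
  rw [h1.1 c (Finset.mem_sdiff.1 hc).2]

def tw {σ : ℕ → W → W} (h : Invo σ) (a b : ℕ) : SimpleGraph W where
  Adj x y := x ≠ y ∧ (σ a x = y ∨ σ b x = y)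
  symm := ⟨fun x y hxy => ⟨hxy.1.symm, by
    rcases hxy.2 with e | e
    · left; rw [← e, h]
    · right; rw [← e, h]⟩⟩
  loopless := ⟨fun x h => h.1 rfl⟩

lemma comp_low' [Fintype W] {σ : ℕ → W → W} (h : Invo σ) (a b : ℕ)
    (K : (tw h a b).ConnectedComponent) (S : Finset W)
    (hS : ∀ u ∈ S, u ∈ K.supp ∧ σ a u = u) : S.card ≤ 2 := by
  classical
  have key : ∀ (v : K) (D : Finset W), (∀ w, (tw h a b).Adj v w → w ∈ D) →
      K.toSimpleGraph.degree v ≤ D.card := by
    intro v D hD
    rw [← SimpleGraph.card_neighborFinset_eq_degree]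
    apply Finset.card_le_card_of_injOn (fun w : K => (w : W))
    · intro w hw
      have hw' : (tw h a b).Adj v w := by
        simpa [SimpleGraph.ConnectedComponent.toSimpleGraph] using hw
      exact hD w hw'
    · intro w _ z _ e
      exact Subtype.ext e
  have := few_low K.toSimpleGraph K.connected_toSimpleGraph (fun v => by
      refine (key v {σ a v, σ b v} ?_).trans Finset.card_le_two
      intro w hw
      rcases hw.2 with e | e <;> simp [← e])
    (Finset.univ.filter fun v : K => (v : W) ∈ S) (fun v hv => by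
      have hv' : (v : W) ∈ S := by simpa using hv
      refine (key v {σ b v} ?_).trans (by simp)
      intro w hw
      rcases hw.2 with e | e
      · exact absurd ((hS v hv').2.symm.trans e) hw.1
      · simp [← e])
  refine le_trans ?_ this
  apply Finset.card_le_card_of_surjOn (fun v : K => (v : W))
  intro u hu
  have hu' : u ∈ S := by simpa using hu
  exact ⟨⟨u, (hS u hu').1⟩, by simpa using hu', rfl⟩

lemma kempe' [Fintype W] {C : Finset ℕ} {σ : ℕ → W → W}
    (h : Invo σ) (N : Finset W) (L : W → Finset ℕ) (hL : ML C σ N L) (a b : ℕ)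
    (ha : a ∈ C) (hb : b ∈ C) (hab : X N L b + 3 ≤ X N L a) :
    ∃ τ L', Invo τ ∧ Rel C σ τ ∧ ML C τ N L' ∧ (∀ u, (L' u).card = (L u).card) ∧
      ∑ i ∈ C, (X N L' i) ^ 2 < ∑ i ∈ C, (X N L i) ^ 2 := by
  classical
  have hne : a ≠ b := by rintro rfl; omega
  set T := tw h a b with hT
  obtain ⟨K, hK⟩ : ∃ K : T.ConnectedComponent,
      ((N.filter fun u => b ∈ L u).filter fun u => T.connectedComponentMk u = K).card <
      ((N.filter fun u => a ∈ L u).filter fun u => T.connectedComponentMk u = K).card := by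
    by_contra hcon
    push Not at hcon
    have e1 := Finset.card_eq_sum_card_fiberwise (s := N.filter fun u => a ∈ L u)
      (t := (Finset.univ : Finset T.ConnectedComponent)) (f := T.connectedComponentMk)
      (fun _ _ => by simp)
    have e2 := Finset.card_eq_sum_card_fiberwise (s := N.filter fun u => b ∈ L u)
      (t := (Finset.univ : Finset T.ConnectedComponent)) (f := T.connectedComponentMk)
      (fun _ _ => by simp)
    have e3 := Finset.sum_le_sum (s := (Finset.univ : Finset T.ConnectedComponent))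
      (fun K _ => hcon K)
    unfold X at hab
    rw [← e1, ← e2] at e3
    have : (N.filter fun u => b ∈ L u).card + 3 ≤ (N.filter fun u => a ∈ L u).card := by
      convert hab
    omega
  have hlow : ((N.filter fun u => a ∈ L u).filter fun u => T.connectedComponentMk u = K).card
      ≤ 2 := by
    apply comp_low' h a b K
    intro u hu
    simp only [Finset.mem_filter] at hu
    exact ⟨hu.2, (hL u hu.1.1).2 a hu.1.2⟩
  set P : W → Prop := fun u => T.connectedComponentMk u = K with hP
  have hcl : ∀ i x, (i = a ∨ i = b) → (P (σ i x) ↔ P x) := by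
    intro i x hi
    by_cases e : x = σ i x
    · rw [← e]
    · have : T.Adj x (σ i x) := ⟨e, by rcases hi with rfl | rfl <;> simp⟩
      have h2 := SimpleGraph.ConnectedComponent.connectedComponentMk_eq_of_adj this
      simp only [hP, h2]
  have hsw : ∀ i ∈ C, Equiv.swap a b i ∈ C := by
    intro i hi
    by_cases h1 : i = a
    · subst h1; simpa using hb
    · by_cases h2 : i = b
      · subst h2; simpa using ha
      · rwa [Equiv.swap_apply_of_ne_of_ne h1 h2]
  let τ : ℕ → W → W := fun i x => if P x then σ (Equiv.swap a b i) x else σ i x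
  have t1 : ∀ i x, P x → τ i x = σ (Equiv.swap a b i) x := by
    intro i x hx; simp only [τ, hx, if_true]
  have t2 : ∀ i x, ¬ P x → τ i x = σ i x := by
    intro i x hx; simp only [τ, hx, if_false]
  have t3 : ∀ i, i ≠ a → i ≠ b → τ i = σ i := by
    intro i h1 h2
    funext x
    simp only [τ, Equiv.swap_apply_of_ne_of_ne h1 h2, ite_self]
  let L' : W → Finset ℕ := fun u => if P u then (L u).map (Equiv.swap a b).toEmbedding else L u
  have l1 : ∀ u i, P u → (i ∈ L' u ↔ Equiv.swap a b i ∈ L u) := by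
    intro u i hu
    simp only [L', hu, if_true, Finset.mem_map_equiv, Equiv.symm_swap]
  have l2 : ∀ u, ¬ P u → L' u = L u := by
    intro u hu; simp only [L', hu, if_false]
  have hx : ∀ (M : W → Finset ℕ) i, X N M i = ((N.filter fun u => i ∈ M u).filter P).card +
      ((N.filter fun u => i ∈ M u).filter fun u => ¬ P u).card := by
    intro M i
    unfold X
    rw [Finset.card_filter_add_card_filter_not]
  have hx1 : ∀ i, ((N.filter fun u => i ∈ L' u).filter P) =
      ((N.filter fun u => Equiv.swap a b i ∈ L u).filter P) := by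
    intro i; ext u
    simp only [Finset.mem_filter]
    constructor
    · rintro ⟨⟨h1, h2⟩, h3⟩; exact ⟨⟨h1, (l1 u i h3).1 h2⟩, h3⟩
    · rintro ⟨⟨h1, h2⟩, h3⟩; exact ⟨⟨h1, (l1 u i h3).2 h2⟩, h3⟩
  have hx2 : ∀ i, ((N.filter fun u => i ∈ L' u).filter fun u => ¬ P u) =
      ((N.filter fun u => i ∈ L u).filter fun u => ¬ P u) := by
    intro i; ext u
    simp only [Finset.mem_filter]
    constructor
    · rintro ⟨⟨h1, h2⟩, h3⟩; exact ⟨⟨h1, l2 u h3 ▸ h2⟩, h3⟩
    · rintro ⟨⟨h1, h2⟩, h3⟩; exact ⟨⟨h1, (l2 u h3).symm ▸ h2⟩, h3⟩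
  refine ⟨τ, L', ?_, ⟨?_, ?_⟩, ?_, ?_, ?_⟩
  · intro i x
    by_cases hi : i = a ∨ i = b
    · have hi' : Equiv.swap a b i = a ∨ Equiv.swap a b i = b := by
        rcases hi with rfl | rfl <;> simp
      by_cases hx : P x
      · rw [t1 i x hx, t1 i _ ((hcl _ x hi').2 hx), h]
      · rw [t2 i x hx, t2 i _ (fun h' => hx ((hcl _ x hi).1 h')), h]
    · push Not at hi
      rw [t3 i hi.1 hi.2, h]
  · intro j hj
    exact t3 j (fun e => hj (e ▸ ha)) (fun e => hj (e ▸ hb))
  · intro x y
    unfold mu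
    by_cases hx : P x
    · apply Finset.card_bij (fun i _ => Equiv.swap a b i)
      · intro i hi
        rw [Finset.mem_filter] at hi ⊢
        exact ⟨hsw i hi.1, by rw [← t1 i x hx]; exact hi.2⟩
      · intro i _ j _ e
        exact (Equiv.swap a b).injective e
      · intro i hi
        rw [Finset.mem_filter] at hi
        refine ⟨Equiv.swap a b i, Finset.mem_filter.2 ⟨hsw i hi.1, ?_⟩, by simp⟩
        rw [t1 _ x hx]
        simpa using hi.2
    · congr 1
      apply Finset.filter_congr
      intro i _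
      rw [t2 i x hx]
  · intro u hu
    by_cases hx : P u
    · refine ⟨fun i hi => ?_, fun i hi => ?_⟩
      · have := hsw _ ((hL u hu).1 ((l1 u i hx).1 hi))
        simpa using this
      · rw [t1 i u hx]
        exact (hL u hu).2 _ ((l1 u i hx).1 hi)
    · rw [l2 u hx]
      refine ⟨(hL u hu).1, fun i hi => ?_⟩
      rw [t2 i u hx]; exact (hL u hu).2 i hi
  · intro u
    by_cases hx : P u
    · simp only [L', hx, if_true, Finset.card_map]
    · rw [l2 u hx]
  · have hb' : b ∈ C.erase a := Finset.mem_erase.2 ⟨hne.symm, hb⟩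
    rw [← Finset.add_sum_erase C _ ha, ← Finset.add_sum_erase C _ ha,
      ← Finset.add_sum_erase _ _ hb', ← Finset.add_sum_erase _ _ hb']
    have hrest : ∑ i ∈ (C.erase a).erase b, (X N L' i) ^ 2 =
        ∑ i ∈ (C.erase a).erase b, (X N L i) ^ 2 := by
      apply Finset.sum_congr rfl
      intro i hi
      simp only [Finset.mem_erase] at hi
      rw [hx L' i, hx L i, hx1, hx2, Equiv.swap_apply_of_ne_of_ne hi.2.1 hi.1]
    rw [hrest]
    have ea := hx L a
    have eb := hx L b
    have ea' := hx L' a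
    have eb' := hx L' b
    rw [hx1, hx2, Equiv.swap_apply_left] at ea'
    rw [hx1, hx2, Equiv.swap_apply_right] at eb'
    rw [ea', eb']
    rw [ea, eb] at hab ⊢
    generalize ((N.filter fun u => a ∈ L u).filter P).card = p at *
    generalize ((N.filter fun u => b ∈ L u).filter P).card = q at *
    generalize ((N.filter fun u => a ∈ L u).filter fun u => ¬ P u).card = r at *
    generalize ((N.filter fun u => b ∈ L u).filter fun u => ¬ P u).card = s at *
    have : s < r := by omega
    nlinarith [Nat.mul_lt_mul'' hK this]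

lemma balance' [Fintype W] {C : Finset ℕ} (N : Finset W)
    (hN : N.card ≤ C.card) (s : W) (hs : s ∈ N) (m : ℕ) : ∀ (σ : ℕ → W → W) (L : W → Finset ℕ),
    Invo σ → ML C σ N L → (L s).card = 1 → (∀ u ∈ N, u ≠ s → (L u).card = 2) →
    ∑ i ∈ C, (X N L i) ^ 2 < m →
    ∃ τ L', Invo τ ∧ Rel C σ τ ∧ ML C τ N L' ∧ (∀ u, (L' u).card = (L u).card) ∧
      ∃ i ∈ C, X N L' i = 1 := by
  classical
  induction m with
  | zero => intro c L _ _ _ _ h; omega
  | succ m ih =>
    intro c L h hL h1 h2 hm
    by_cases hk : ∃ a ∈ C, ∃ b ∈ C, X N L b + 3 ≤ X N L a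
    · obtain ⟨a, ha, b, hb, hab⟩ := hk
      obtain ⟨c', L', p1, p0, p2, p3, p4⟩ := kempe' h N L hL a b ha hb hab
      obtain ⟨c'', L'', q1, q0, q2, q3, q4⟩ := ih c' L' p1 p2 (by rw [p3, h1])
        (fun u hu hus => by rw [p3, h2 u hu hus]) (by omega)
      exact ⟨c'', L'', q1, p0.trans q0, q2, fun u => by rw [q3, p3], q4⟩
    · push Not at hk
      refine ⟨c, L, h, Rel.refl _ _, hL, fun _ => rfl, ?_⟩
      by_contra hcon
      push Not at hcon
      have hsum := sum_X C N L (fun u hu => (hL u hu).1)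
      rw [← Finset.add_sum_erase N _ hs, h1, Finset.sum_congr rfl
        (fun u hu => h2 u (Finset.mem_of_mem_erase hu) (Finset.ne_of_mem_erase hu))] at hsum
      simp only [Finset.sum_const, smul_eq_mul] at hsum
      have hce := Finset.card_erase_add_one hs
      obtain ⟨b, hb, hb0⟩ : ∃ b ∈ C, X N L b = 0 := by
        by_contra hz
        push Not at hz
        have : ∑ _i ∈ C, 2 ≤ ∑ i ∈ C, X N L i := Finset.sum_le_sum fun i hi => by
          have := hz i hi; have := hcon i hi; omega
        simp only [Finset.sum_const, smul_eq_mul] at this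
        omega
      have : 2 ∣ ∑ i ∈ C, X N L i := Finset.dvd_sum fun i hi => by
        have := hk i hi b hb; have := hcon i hi; omega
      omega

lemma extend' [Fintype W] (n : ℕ) : ∀ (C : Finset ℕ)
    (N : Finset W) (σ : ℕ → W → W) (L : W → Finset ℕ), N.card = n → N.card ≤ C.card →
    Invo σ → ML C σ N L → (∀ u ∈ N, 2 ≤ (L u).card) →
    ∃ τ, ∃ f : W → ℕ, Invo τ ∧ Rel C σ τ ∧ Set.InjOn f N ∧
      ∀ u ∈ N, f u ∈ C ∧ τ (f u) u = u := by
  classical
  suffices H : ∀ (n : ℕ) (C : Finset ℕ) (N : Finset W) (σ : ℕ → W → W) (L : W → Finset ℕ) (s : W),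
      N.card = n → N.card ≤ C.card → Invo σ → ML C σ N L → (∀ u ∈ N, 1 ≤ (L u).card) →
      (∀ u ∈ N, u ≠ s → 2 ≤ (L u).card) →
      ∃ τ, ∃ f : W → ℕ, Invo τ ∧ Rel C σ τ ∧ Set.InjOn f N ∧
        ∀ u ∈ N, f u ∈ C ∧ τ (f u) u = u by
    intro C N σ L hn hN h hL h2
    rcases N.eq_empty_or_nonempty with rfl | ⟨s, _⟩
    · exact ⟨σ, fun _ => 0, h, Rel.refl _ _, by simp, by simp⟩
    · exact H n C N σ L s hn hN h hL (fun u hu => by have := h2 u hu; omega)
        (fun u hu _ => h2 u hu)
  intro n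
  induction n with
  | zero =>
    intro C N c L s hn _ h _ _ _
    have : N = ∅ := Finset.card_eq_zero.1 hn
    subst this
    exact ⟨c, fun _ => 0, h, Rel.refl _ _, by simp, by simp⟩
  | succ n ih =>
    intro C N c L s0 hn hN h hL h1 h2
    obtain ⟨s, hs, h2⟩ : ∃ s ∈ N, ∀ u ∈ N, u ≠ s → 2 ≤ (L u).card := by
      by_cases hs0 : s0 ∈ N
      · exact ⟨s0, hs0, h2⟩
      · obtain ⟨s, hs⟩ : N.Nonempty := Finset.card_pos.1 (by omega)
        exact ⟨s, hs, fun u hu _ => h2 u hu (fun e => hs0 (e ▸ hu))⟩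
    have hch : ∀ u, ∃ M : Finset ℕ, u ∈ N → M ⊆ L u ∧ M.card = if u = s then 1 else 2 := by
      intro u
      by_cases hu : u ∈ N
      · obtain ⟨M, hM⟩ := Finset.exists_subset_card_eq (s := L u) (n := if u = s then 1 else 2)
          (by
            by_cases e : u = s
            · simp only [e, if_true]; exact h1 s hs
            · simp only [e, if_false]; exact h2 u hu e)
        exact ⟨M, fun _ => hM⟩
      · exact ⟨∅, fun h => absurd h hu⟩
    choose L0 hL0 using hch
    have hV0 : ML C c N L0 := fun u hu =>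
      ⟨(hL0 u hu).1.trans (hL u hu).1, fun i hi => (hL u hu).2 i ((hL0 u hu).1 hi)⟩
    obtain ⟨c1, L1, p1, p0, p2, p3, i, hi, p4⟩ := balance' N hN s hs _ c L0 h hV0
      (by rw [(hL0 s hs).2]; simp) (fun u hu e => by rw [(hL0 u hu).2]; simp [e])
      (Nat.lt_succ_self _)
    unfold X at p4
    obtain ⟨u0, hu0⟩ := Finset.card_eq_one.1 p4
    have hu : ∀ u, (u ∈ N ∧ i ∈ L1 u) ↔ u = u0 := by
      intro u
      have := Finset.ext_iff.1 hu0 u
      simpa using this
    have hu0N := (hu u0).2 rfl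
    have hce := Finset.card_erase_add_one hu0N.1
    have hci := Finset.card_erase_add_one hi
    obtain ⟨c2, f, q1, q0, q2, q3⟩ := ih (C.erase i) (N.erase u0) c1 L1 s (by omega) (by omega) p1
      (fun u hu' => by
        have hN' := Finset.mem_of_mem_erase hu'
        refine ⟨fun j hj => Finset.mem_erase.2 ⟨?_, (p2 u hN').1 hj⟩, (p2 u hN').2⟩
        rintro rfl
        exact Finset.ne_of_mem_erase hu' ((hu u).1 ⟨hN', hj⟩))
      (fun u hu' => by
        rw [p3, (hL0 u (Finset.mem_of_mem_erase hu')).2]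
        split_ifs <;> omega)
      (fun u hu' e => by
        rw [p3, (hL0 u (Finset.mem_of_mem_erase hu')).2]
        simp [e])
    refine ⟨c2, fun u => if u = u0 then i else f u, q1,
      p0.trans (q0.mono (Finset.erase_subset _ _)), ?_, ?_⟩
    · intro x hx y hy e
      have hf : ∀ u ∈ N, u ≠ u0 → f u ≠ i := fun u hu e =>
        (Finset.mem_erase.1 (q3 u (Finset.mem_erase.2 ⟨e, hu⟩)).1).1
      by_cases e1 : x = u0 <;> by_cases e2 : y = u0
      · rw [e1, e2]
      · simp only [e1, e2, if_true, if_false] at e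
        exact absurd e.symm (hf y hy e2)
      · simp only [e1, e2, if_true, if_false] at e
        exact absurd e (hf x hx e1)
      · simp only [e1, e2, if_false] at e
        exact q2 (by simpa using ⟨hx, e1⟩) (by simpa using ⟨hy, e2⟩) e
    · intro u huN
      by_cases e : u = u0
      · subst e
        simp only [if_true]
        refine ⟨hi, ?_⟩
        rw [q0.1 i (by simp)]
        exact (p2 u huN).2 i hu0N.2
      · simp only [e, if_false]
        have := q3 u (Finset.mem_erase.2 ⟨e, huN⟩)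
        exact ⟨Finset.mem_of_mem_erase this.1, this.2⟩

end Pool.Agent.H.MP_d14d18_co
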