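import Pool.Agent.H.MP_d14d18_co.A

set_option autoImplicit false

namespace Pool.Agent.H.MP_d14d18_co

open Finset Pool.Agent.H.MP_7b5b6d_co

variable {W : Type*}

lemma Invo.flip {σ : ℕ → W → W} (h : Invo σ) {c : ℕ} {x y : W} (e : σ c x = y) : σ c y = x := by
  rw [← e, h]

lemma mu_symm {C : Finset ℕ} {σ : ℕ → W → W} (h : Invo σ) (x y : W) :
    mu C σ x y = mu C σ y x := by
  classical
  unfold mu
  congr 1
  apply Finset.filter_congr
  intro c _
  exact ⟨fun e => h.flip e, fun e => h.flip e⟩

lemma addEdge {C : Finset ℕ} {τ : ℕ → W → W} (h : Invo τ) {c : ℕ} (hc : c ∈ C) {x y : W}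
    (hxy : x ≠ y) (hx : τ c x = x) (hy : τ c y = y) :
    ∃ ρ : ℕ → W → W, Invo ρ ∧ (∀ j, j ≠ c → ρ j = τ j) ∧
      (∀ j a, a ≠ x → a ≠ y → ρ j a = τ j a) ∧
      (∀ a b, a ≠ b → ¬ ((a = x ∧ b = y) ∨ (a = y ∧ b = x)) → mu C ρ a b = mu C τ a b) ∧
      mu C ρ x y = mu C τ x y + 1 := by
  classical
  let s : W → W := fun w => if w = x then y else if w = y then x else τ c w
  have sx : s x = y := by simp [s]
  have sy : s y = x := by simp [s, hxy.symm]
  have so : ∀ w, w ≠ x → w ≠ y → s w = τ c w := by
    intro w h1 h2; simp [s, h1, h2]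
  refine ⟨Function.update τ c s, ?_, ?_, ?_, ?_, ?_⟩
  · intro j w
    by_cases hj : j = c
    · subst hj
      rw [Function.update_self]
      by_cases h1 : w = x
      · rw [h1, sx, sy]
      by_cases h2 : w = y
      · rw [h2, sy, sx]
      rw [so w h1 h2, so]
      · exact h _ _
      · intro e
        exact h1 ((h.flip e).symm.trans hx)
      · intro e
        exact h2 ((h.flip e).symm.trans hy)
    · rw [Function.update_of_ne hj]; exact h _ _
  · intro j hj
    exact Function.update_of_ne hj _ _
  · intro j a h1 h2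
    by_cases hj : j = c
    · subst hj
      rw [Function.update_self, so a h1 h2]
    · rw [Function.update_of_ne hj]
  · intro a b hab hn
    unfold mu
    congr 1
    apply Finset.filter_congr
    intro j _
    by_cases hj : j = c
    · subst hj
      rw [Function.update_self]
      by_cases h1 : a = x
      · subst h1
        rw [sx, hx]
        constructor
        · intro e; exact absurd (Or.inl ⟨rfl, e.symm⟩) hn
        · intro e; exact absurd e hab
      by_cases h2 : a = y
      · subst h2
        rw [sy, hy]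
        constructor
        · intro e; exact absurd (Or.inr ⟨rfl, e.symm⟩) hn
        · intro e; exact absurd e hab
      rw [so a h1 h2]
    · rw [Function.update_of_ne hj]
  · unfold mu
    have : C.filter (fun j => Function.update τ c s j x = y) =
        insert c (C.filter fun j => τ j x = y) := by
      ext j
      by_cases hj : j = c
      · subst hj
        simp [hc, sx]
      · simp [hj]
    rw [show (C.filter (fun j => Function.update τ c s j x = y)).card =
      (insert c (C.filter fun j => τ j x = y)).card from by rw [this]]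
    rw [Finset.card_insert_of_notMem]
    simp [hx, hxy]

lemma addStar {C : Finset ℕ} {τ : ℕ → W → W} (h : Invo τ) (v : W) (f : W → ℕ) (N : Finset W) :
    v ∉ N → Set.InjOn f N → (∀ u ∈ N, f u ∈ C ∧ τ (f u) u = u ∧ τ (f u) v = v) →
    ∃ ρ : ℕ → W → W, Invo ρ ∧ (∀ j, (∀ u ∈ N, f u ≠ j) → ρ j = τ j) ∧
      (∀ j a, a ≠ v → a ∉ N → ρ j a = τ j a) ∧
      (∀ a b, a ≠ b → ¬ ((a = v ∧ b ∈ N) ∨ (a ∈ N ∧ b = v)) → mu C ρ a b = mu C τ a b) ∧
      ∀ b ∈ N, mu C ρ v b = mu C τ v b + 1 := by
  classical
  induction N using Finset.induction_on with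
  | empty =>
    intro _ _ _
    exact ⟨τ, h, fun _ _ => rfl, fun _ _ _ _ => rfl, fun _ _ _ _ => rfl, by simp⟩
  | insert y N hy ih =>
    intro hv hf hN
    have hvN : v ∉ N := fun e => hv (Finset.mem_insert_of_mem e)
    have hvy : v ≠ y := fun e => hv (e ▸ Finset.mem_insert_self _ _)
    obtain ⟨ρ, r1, r2, r3, r4, r5⟩ := ih hvN
      (hf.mono (by simp)) (fun u hu => hN u (Finset.mem_insert_of_mem hu))
    have hy' := hN y (Finset.mem_insert_self _ _)
    have e : ρ (f y) = τ (f y) := by
      apply r2
      intro u hu e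
      have : u = y := hf (by simp [hu]) (by simp) e
      exact hy (this ▸ hu)
    obtain ⟨ρ', s1, s2, s3, s4, s5⟩ := addEdge (C := C) r1 hy'.1 hvy
      (by rw [e]; exact hy'.2.2) (by rw [e]; exact hy'.2.1)
    refine ⟨ρ', s1, ?_, ?_, ?_, ?_⟩
    · intro j hj
      rw [s2 j (hj y (Finset.mem_insert_self _ _)).symm]
      exact r2 j fun u hu => hj u (Finset.mem_insert_of_mem hu)
    · intro j a h1 h2
      rw [s3 j a h1 (fun e => h2 (e ▸ Finset.mem_insert_self _ _))]
      exact r3 j a h1 fun e => h2 (Finset.mem_insert_of_mem e)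
    · intro a b hab hn
      rw [s4 a b hab, r4 a b hab]
      · rintro (⟨h1, h2⟩ | ⟨h1, h2⟩)
        · exact hn (Or.inl ⟨h1, Finset.mem_insert_of_mem h2⟩)
        · exact hn (Or.inr ⟨Finset.mem_insert_of_mem h1, h2⟩)
      · rintro (⟨h1, h2⟩ | ⟨h1, h2⟩)
        · exact hn (Or.inl ⟨h1, h2 ▸ Finset.mem_insert_self _ _⟩)
        · exact hn (Or.inr ⟨h1 ▸ Finset.mem_insert_self _ _, h2⟩)
    · intro b hb
      rcases Finset.mem_insert.1 hb with rfl | hb'
      · rw [s5, r4 v b hvy]
        rintro (⟨_, h2⟩ | ⟨h1, _⟩)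
        · exact hy h2
        · exact hvN h1
      · have hvb : v ≠ b := fun e => hvN (e ▸ hb')
        rw [s4 v b hvb, r5 b hb']
        rintro (⟨_, h2⟩ | ⟨h1, _⟩)
        · exact hy (h2 ▸ hb')
        · exact hvy h1

open Classical in
lemma fiber_perm (C : Finset ℕ) (a b : ℕ → W)
    (h : ∀ x, (C.filter fun c => a c = x).card = (C.filter fun c => b c = x).card) :
    ∃ π : ℕ → ℕ, Set.InjOn π C ∧ ∀ c ∈ C, π c ∈ C ∧ b (π c) = a c := by
  have key : ∀ x, ∃ g : ℕ → ℕ, Set.InjOn g (C.filter fun c => a c = x) ∧
      ∀ c ∈ (C.filter fun c => a c = x), g c ∈ (C.filter fun c => b c = x) := by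
    intro x
    let e := Finset.equivOfCardEq (h x)
    refine ⟨fun c => if hc : c ∈ (C.filter fun c => a c = x) then (e ⟨c, hc⟩ : ℕ) else 0, ?_, ?_⟩
    · intro c hc c' hc' e'
      have hc1 : c ∈ (C.filter fun c => a c = x) := hc
      have hc2 : c' ∈ (C.filter fun c => a c = x) := hc'
      simp only [dif_pos hc1, dif_pos hc2] at e'
      have := e.injective (Subtype.ext e')
      exact congrArg Subtype.val this
    · intro c hc
      simp only [dif_pos hc]
      exact (e ⟨c, hc⟩).2
  choose g g1 g2 using key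
  have m : ∀ c ∈ C, g (a c) c ∈ C ∧ b (g (a c) c) = a c := by
    intro c hc
    exact Finset.mem_filter.1 (g2 (a c) c (Finset.mem_filter.2 ⟨hc, rfl⟩))
  refine ⟨fun c => g (a c) c, ?_, m⟩
  intro c hc c' hc' e
  have e' : g (a c) c = g (a c') c' := e
  have ea : a c = a c' := by rw [← (m c hc).2, ← (m c' hc').2, e']
  rw [← ea] at e'
  exact g1 (a c) (Finset.mem_coe.2 (Finset.mem_filter.2 ⟨hc, rfl⟩))
    (Finset.mem_coe.2 (Finset.mem_filter.2 ⟨hc', ea.symm⟩)) e'

lemma mu_ne_zero {C : Finset ℕ} {σ : ℕ → W → W} {c : ℕ} (hc : c ∈ C) {x y : W}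
    (e : σ c x = y) : mu C σ x y ≠ 0 := by
  classical
  unfold mu
  rw [Ne, Finset.card_eq_zero, ← Ne, ← Finset.nonempty_iff_ne_empty]
  exact ⟨c, Finset.mem_filter.2 ⟨hc, e⟩⟩

lemma mu_eq (C : Finset ℕ) (σ : ℕ → W → W) (x y : W) [DecidablePred fun c => σ c x = y] :
    mu C σ x y = (C.filter fun c => σ c x = y).card := by
  unfold mu; congr

lemma mu_full {C : Finset ℕ} {σ : ℕ → W → W} {x y : W} :
    mu C σ x y = C.card ↔ ∀ c ∈ C, σ c x = y := by
  classical
  rw [mu_eq, Finset.card_filter_eq_iff]

lemma mu_congr {C : Finset ℕ} {σ τ : ℕ → W → W} {x y : W} (h : ∀ c ∈ C, σ c x = τ c x) :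
    mu C σ x y = mu C τ x y := by
  classical
  rw [mu_eq, mu_eq]
  congr 1
  apply Finset.filter_congr
  intro c hc
  rw [h c hc]

variable {V : Type*}

open Classical in
noncomputable def fb (C : Finset ℕ) (β : ℕ → Option V) (x : Option V) : ℕ :=
  (C.filter fun c => β c = x).card

def Real (G : SimpleGraph V) (C : Finset ℕ) (β : ℕ → Option V) (S : Finset V)
    (σ : ℕ → Option V → Option V) : Prop :=
  Invo σ ∧ (∀ u v, G.Adj u v → u ∈ S → v ∈ S → mu C σ (some u) (some v) = 1) ∧
    (∀ u v, u ≠ v → ¬ (G.Adj u v ∧ u ∈ S ∧ v ∈ S) → mu C σ (some u) (some v) = 0) ∧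
    ∀ x, mu C σ none x = fb C β x

lemma Real.rel {G : SimpleGraph V} {C : Finset ℕ} {β : ℕ → Option V} {S : Finset V}
    {σ τ : ℕ → Option V → Option V} (h : Real G C β S σ) (hτ : Invo τ) (r : Rel C σ τ) :
    Real G C β S τ :=
  ⟨hτ, fun u v a b c => (r.2 _ _).trans (h.2.1 u v a b c),
    fun u v a b => (r.2 _ _).trans (h.2.2.1 u v a b), fun x => (r.2 _ _).trans (h.2.2.2 x)⟩

open Classical in
lemma Real.used [Fintype V] {G : SimpleGraph V} [DecidableRel G.Adj] {C : Finset ℕ}
    {β : ℕ → Option V} {S : Finset V}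
    {σ : ℕ → Option V → Option V} (h : Real G C β S σ) (u : V) :
    (C.filter fun c => σ c (some u) ≠ some u).card ≤
      ((G.neighborFinset u).filter (· ∈ S)).card + fb C β (some u) := by
  have sub : (C.filter fun c => σ c (some u) ≠ some u) ⊆
      (((G.neighborFinset u).filter (· ∈ S)).biUnion
        fun w => C.filter fun c => σ c (some u) = some w) ∪
      C.filter fun c => σ c (some u) = none := by
    intro c hc
    obtain ⟨hc1, hc2⟩ := Finset.mem_filter.1 hc
    rcases e : σ c (some u) with _ | w
    · exact Finset.mem_union_right _ (Finset.mem_filter.2 ⟨hc1, e⟩)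
    · apply Finset.mem_union_left
      have huw : u ≠ w := fun e' => hc2 (by rw [e, e'])
      have : G.Adj u w ∧ u ∈ S ∧ w ∈ S := by
        by_contra hn
        exact mu_ne_zero hc1 e (h.2.2.1 u w huw hn)
      exact Finset.mem_biUnion.2 ⟨w, Finset.mem_filter.2 ⟨by simpa using this.1, this.2.2⟩,
        Finset.mem_filter.2 ⟨hc1, e⟩⟩
  refine (Finset.card_le_card sub).trans ((Finset.card_union_le _ _).trans ?_)
  apply Nat.add_le_add
  · refine Finset.card_biUnion_le.trans ?_
    rw [Finset.card_eq_sum_ones ((G.neighborFinset u).filter (· ∈ S))]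
    apply Finset.sum_le_sum
    intro w hw
    obtain ⟨hw1, hw2⟩ := Finset.mem_filter.1 hw
    have hw3 : G.Adj u w := by simpa using hw1
    have e : (C.filter fun c => σ c (some u) = some w).card = mu C σ (some u) (some w) := by
      unfold mu; congr
    rw [e]
    by_cases hu : u ∈ S
    · exact (h.2.1 u w hw3 hu hw2).le
    · rw [h.2.2.1 u w hw3.ne (fun a => hu a.2.1)]; exact Nat.zero_le _
  · have e : (C.filter fun c => σ c (some u) = none).card = mu C σ (some u) none := by
      unfold mu; congr
    rw [e, mu_symm h.1, h.2.2.2]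

open Classical in
lemma Real.step [Fintype V] {G : SimpleGraph V} [DecidableRel G.Adj] {C : Finset ℕ}
    {β : ℕ → Option V} {S : Finset V}
    {σ : ℕ → Option V → Option V} (h : Real G C β S σ) (v : V) (hv : v ∉ S)
    (h1 : ((G.neighborFinset v).filter (· ∈ S)).card + fb C β (some v) ≤ C.card)
    (h2 : ∀ u ∈ S, G.Adj v u → ((G.neighborFinset u).filter (· ∈ S)).card + fb C β (some u) +
      fb C β (some v) + 2 ≤ C.card) : ∃ τ, Real G C β (insert v S) τ := by
  set C' := C.filter fun c => ¬ σ c (some v) = none with hC'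
  have hsub : C' ⊆ C := Finset.filter_subset _ _
  have hcard : C'.card + fb C β (some v) = C.card := by
    have e : (C.filter fun c => σ c (some v) = none).card = mu C σ (some v) none := by
      unfold mu; congr
    rw [← h.2.2.2, mu_symm h.1, ← e, add_comm]
    exact Finset.card_filter_add_card_filter_not _
  have hfix : ∀ c ∈ C', σ c (some v) = some v := by
    intro c hc
    obtain ⟨hc1, hc2⟩ := Finset.mem_filter.1 hc
    rcases e : σ c (some v) with _ | w
    · exact absurd e hc2
    · by_contra hn
      have hvw : v ≠ w := fun e' => hn (by rw [e'])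
      exact mu_ne_zero hc1 e (h.2.2.1 v w hvw (fun a => hv a.2.1))
  set N : Finset (Option V) := ((G.neighborFinset v).filter (· ∈ S)).image some with hN
  have memN : ∀ x, x ∈ N ↔ ∃ u, G.Adj v u ∧ u ∈ S ∧ x = some u := by
    intro x
    simp only [hN, Finset.mem_image, Finset.mem_filter, SimpleGraph.mem_neighborFinset]
    constructor
    · rintro ⟨u, ⟨a, b⟩, c⟩; exact ⟨u, a, b, c.symm⟩
    · rintro ⟨u, a, b, c⟩; exact ⟨u, ⟨a, b⟩, c.symm⟩
  have hNc : N.card ≤ C'.card := by
    have : N.card ≤ ((G.neighborFinset v).filter (· ∈ S)).card := Finset.card_image_le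
    omega
  obtain ⟨τ, f, t1, t2, t3, t4⟩ := extend' N.card C' N σ (fun x => C'.filter fun c => σ c x = x)
    rfl hNc h.1 (fun x _ => ⟨Finset.filter_subset _ _, fun i hi => (Finset.mem_filter.1 hi).2⟩)
    (by
      intro x hx
      obtain ⟨u, a, b, rfl⟩ := (memN x).1 hx
      have k1 := h.used u
      have k2 := h2 u b a
      have k3 : (C'.filter fun c => σ c (some u) = some u).card +
          (C'.filter fun c => ¬ σ c (some u) = some u).card = C'.card :=
        Finset.card_filter_add_card_filter_not _
      have k4 : (C'.filter fun c => ¬ σ c (some u) = some u).card ≤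
          (C.filter fun c => σ c (some u) ≠ some u).card :=
        Finset.card_le_card (Finset.filter_subset_filter _ hsub)
      omega)
  have hfix' : ∀ c ∈ C', τ c (some v) = some v := by
    exact mu_full.1 ((t2.2 _ _).trans (mu_full.2 hfix))
  have hτ := h.rel t1 (t2.mono hsub)
  have hvN : some v ∉ N := by
    intro hx
    obtain ⟨u, a, _, e⟩ := (memN _).1 hx
    exact a.ne (Option.some.inj e)
  obtain ⟨ρ, r1, _, r3, r4, r5⟩ := addStar (C := C) t1 (some v) f N hvN t3
    (fun u hu => ⟨hsub (t4 u hu).1, (t4 u hu).2, hfix' _ (t4 u hu).1⟩)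
  refine ⟨ρ, r1, ?_, ?_, ?_⟩
  · have k : ∀ w, G.Adj v w → w ∈ S → mu C ρ (some v) (some w) = 1 := by
      intro w a b
      rw [r5 _ ((memN _).2 ⟨w, a, b, rfl⟩), hτ.2.2.1 v w a.ne (fun a => hv a.2.1)]
    intro u w a hu hw
    rcases Finset.mem_insert.1 hu with rfl | hu'
    · rcases Finset.mem_insert.1 hw with rfl | hw'
      · exact absurd rfl a.ne
      · exact k w a hw'
    · rcases Finset.mem_insert.1 hw with rfl | hw'
      · rw [mu_symm r1]; exact k u a.symm hu'
      · rw [r4 _ _ (fun e => a.ne (Option.some.inj e)), hτ.2.1 u w a hu' hw']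
        rintro (⟨e, _⟩ | ⟨_, e⟩)
        · exact hv (Option.some.inj e ▸ hu')
        · exact hv (Option.some.inj e ▸ hw')
  · intro u w huw hn
    rw [r4 _ _ (fun e => huw (Option.some.inj e)), hτ.2.2.1 u w huw]
    · exact fun a => hn ⟨a.1, Finset.mem_insert_of_mem a.2.1, Finset.mem_insert_of_mem a.2.2⟩
    · rintro (⟨e, e'⟩ | ⟨e', e⟩)
      · obtain ⟨x, a, b, c⟩ := (memN _).1 e'
        have e1 := Option.some.inj e
        have e2 := Option.some.inj c
        subst e1 e2
        exact hn ⟨a, Finset.mem_insert_self _ _, Finset.mem_insert_of_mem b⟩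
      · obtain ⟨x, a, b, c⟩ := (memN _).1 e'
        have e1 := Option.some.inj e
        have e2 := Option.some.inj c
        subst e1 e2
        exact hn ⟨a.symm, Finset.mem_insert_of_mem b, Finset.mem_insert_self _ _⟩
  · intro x
    rw [← hτ.2.2.2 x]
    apply mu_congr
    intro c _
    rw [r3 c none (by simp)]
    intro hx
    obtain ⟨u, _, _, e⟩ := (memN _).1 hx
    cases e

open Classical in
lemma Real.init (G : SimpleGraph V) (C : Finset ℕ) (β : ℕ → Option V) :
    ∃ σ, Real G C β ∅ σ := by
  let σ : ℕ → Option V → Option V := fun c x =>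
    if x = none then β c else if x = β c then none else x
  refine ⟨σ, ?_, by simp, ?_, ?_⟩
  · intro c x
    by_cases h1 : x = none
    · subst h1
      by_cases h2 : β c = none
      · simp [σ, h2]
      · simp [σ, h2]
    · by_cases h2 : x = β c
      · have : σ c x = none := by simp only [σ, if_neg h1, if_pos h2]
        rw [this, h2]
        simp [σ]
      · have : σ c x = x := by simp only [σ, if_neg h1, if_neg h2]
        rw [this, this]
  · intro u v huv _
    rw [mu_eq, Finset.card_eq_zero, Finset.filter_eq_empty_iff]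
    intro c _
    by_cases h2 : some u = β c
    · have : σ c (some u) = none := by simp only [σ, if_pos h2]; simp
      rw [this]; simp
    · have : σ c (some u) = some u := by simp only [σ, if_neg h2]; simp
      rw [this]; simpa using huv
  · intro x
    rw [mu_eq]
    unfold fb
    congr 1

theorem distinct [Fintype V] (G : SimpleGraph V) [DecidableRel G.Adj] (C : Finset ℕ)
    (F : V → Finset ℕ) (D : ℕ) (hdis : ∀ u v c, c ∈ F u → c ∈ F v → u = v)
    (hFC : ∀ v, F v ⊆ C) (hdeg : ∀ v, G.degree v + (F v).card ≤ D)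
    (hsum : ∑ v, (F v).card ≤ D) (hC : D + 2 ≤ C.card) :
    ∃ c, PC G C c ∧ ∀ u v, G.Adj u v → c u v ∉ F u := by
  classical
  let β : ℕ → Option V := fun c => if h : ∃ v, c ∈ F v then some h.choose else none
  have hβ : ∀ c u, β c = some u ↔ c ∈ F u := by
    intro c u
    by_cases h : ∃ v, c ∈ F v
    · have e : β c = some h.choose := dif_pos h
      rw [e]
      constructor
      · intro e'
        rw [← Option.some.inj e']; exact h.choose_spec
      · intro hu
        rw [hdis _ _ _ hu h.choose_spec]
    · have e : β c = none := dif_neg h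
      rw [e]
      constructor
      · intro e'; cases e'
      · intro hu; exact absurd ⟨u, hu⟩ h
  have hfb : ∀ u, fb C β (some u) = (F u).card := by
    intro u
    unfold fb
    congr 1
    ext c
    simp only [Finset.mem_filter, hβ]
    exact ⟨fun h => h.2, fun h => ⟨hFC u h, h⟩⟩
  have hle : ∀ (S : Finset V) u, ((G.neighborFinset u).filter (· ∈ S)).card ≤ G.degree u :=
    fun S u => Finset.card_filter_le _ _
  have s1 : ∀ S : Finset V, (∀ u ∈ S, 1 ≤ (F u).card) → ∃ σ, Real G C β S σ := by
    intro S
    induction S using Finset.induction_on with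
    | empty => intro _; exact Real.init G C β
    | insert v S hv ih =>
      intro hS
      obtain ⟨σ, h⟩ := ih fun u hu => hS u (Finset.mem_insert_of_mem hu)
      apply h.step v hv
      · have := hle S v
        have := hdeg v
        rw [hfb]; omega
      · intro u hu a
        rw [hfb, hfb]
        have k1 : ((G.neighborFinset u).filter (· ∈ S)).card ≤ (S.erase u).card := by
          apply Finset.card_le_card
          intro w hw
          obtain ⟨w1, w2⟩ := Finset.mem_filter.1 hw
          have w3 : G.Adj u w := by simpa using w1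
          exact Finset.mem_erase.2 ⟨w3.ne.symm, w2⟩
        have k2 : (S.erase u).card ≤ ∑ w ∈ S.erase u, (F w).card := by
          rw [Finset.card_eq_sum_ones]
          exact Finset.sum_le_sum fun w hw =>
            hS w (Finset.mem_insert_of_mem (Finset.mem_of_mem_erase hw))
        have k3 : (F u).card + ∑ w ∈ S.erase u, (F w).card = ∑ w ∈ S, (F w).card :=
          Finset.add_sum_erase S (fun w => (F w).card) hu
        have k4 : ∑ w ∈ insert v S, (F w).card = (F v).card + ∑ w ∈ S, (F w).card :=
          Finset.sum_insert hv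
        have k5 : ∑ w ∈ insert v S, (F w).card ≤ ∑ w, (F w).card :=
          Finset.sum_le_sum_of_subset (Finset.subset_univ _)
        omega
  have s2 : ∀ S : Finset V, ∃ σ,
      Real G C β (S ∪ Finset.univ.filter fun u => 1 ≤ (F u).card) σ := by
    intro S
    induction S using Finset.induction_on with
    | empty =>
      rw [Finset.empty_union]
      exact s1 _ fun u hu => (Finset.mem_filter.1 hu).2
    | insert v S _ ih =>
      obtain ⟨σ, h⟩ := ih
      rw [Finset.insert_union]
      by_cases hv : v ∈ S ∪ Finset.univ.filter fun u => 1 ≤ (F u).card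
      · rw [Finset.insert_eq_of_mem hv]; exact ⟨σ, h⟩
      have hv0 : (F v).card = 0 := by
        by_contra h0
        exact hv (Finset.mem_union_right _ (Finset.mem_filter.2 ⟨Finset.mem_univ _, by omega⟩))
      apply h.step v hv
      · have := hle (S ∪ Finset.univ.filter fun u => 1 ≤ (F u).card) v
        have := hdeg v
        rw [hfb]; omega
      · intro u hu a
        have := hle (S ∪ Finset.univ.filter fun u => 1 ≤ (F u).card) u
        have := hdeg u
        rw [hfb, hfb]; omega
  obtain ⟨σ, h⟩ := s2 Finset.univ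
  have hall : ∀ u, u ∈ (Finset.univ ∪ Finset.univ.filter fun u => 1 ≤ (F u).card : Finset V) :=
    fun u => Finset.mem_union_left _ (Finset.mem_univ _)
  obtain ⟨π, p1, p2⟩ := fiber_perm C (fun c => σ c none) β (by
    intro x
    have := h.2.2.2 x
    unfold mu fb at this
    convert this)
  let col : V → V → ℕ := fun u v => ∑ c ∈ C.filter (fun c => σ c (some u) = some v), π c
  have key : ∀ u v, G.Adj u v → ∃ c ∈ C, σ c (some u) = some v ∧ col u v = π c := by
    intro u v a
    have := h.2.1 u v a (hall u) (hall v)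
    rw [mu_eq, Finset.card_eq_one] at this
    obtain ⟨c, hc⟩ := this
    have hc' : c ∈ C.filter (fun c => σ c (some u) = some v) := by
      rw [hc]; exact Finset.mem_singleton_self _
    refine ⟨c, (Finset.mem_filter.1 hc').1, (Finset.mem_filter.1 hc').2, ?_⟩
    simp only [col]
    rw [hc, Finset.sum_singleton]
  refine ⟨col, ⟨?_, ?_, ?_⟩, ?_⟩
  · intro x y
    simp only [col]
    congr 1
    apply Finset.filter_congr
    intro c _
    exact ⟨fun e => h.1.flip e, fun e => h.1.flip e⟩
  · intro x y a
    obtain ⟨c, hc, _, e⟩ := key x y a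
    rw [e]; exact (p2 c hc).1
  · intro x y z a b e
    obtain ⟨c, hc, c1, e1⟩ := key x y a
    obtain ⟨c', hc', c2, e2⟩ := key x z b
    rw [e1, e2] at e
    have : c = c' := p1 hc hc' e
    subst this
    exact Option.some.inj (c1.symm.trans c2)
  · intro u v a hF
    obtain ⟨c, hc, c1, e1⟩ := key u v a
    rw [e1, ← hβ, (p2 c hc).2] at hF
    have := h.1.flip hF
    rw [c1] at this
    cases this

end Pool.Agent.H.MP_d14d18_co
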