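import Pool.Agent.H.MP_d14d18_co.B

set_option autoImplicit false

namespace Pool.Agent.H.MP_d14d18_co

open Finset Pool.Agent.H.MP_7b5b6d_co

variable {V : Type*}

structure St (G : SimpleGraph V) (A : Finset ℕ) (F : V → Finset ℕ) (σ : ℕ → V → V) : Prop where
  inv : Invo σ
  ok : ∀ c u, σ c u ≠ u → c ∈ A ∧ G.Adj u (σ c u) ∧ c ∉ F u
  uq : ∀ c c' u, σ c u ≠ u → σ c u = σ c' u → c = c'

open Classical in
noncomputable def cov (A : Finset ℕ) (σ : ℕ → V → V) (u : V) : ℕ :=
  (A.filter fun c => σ c u ≠ u).card

lemma St.move {G : SimpleGraph V} {A : Finset ℕ} {F : V → Finset ℕ} {σ : ℕ → V → V}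
    (h : St G A F σ) {u w : V} {c : ℕ} (hc : c ∈ A) (a : G.Adj u w) (hu : σ c u = u)
    (hFu : c ∉ F u) (hFw : c ∉ F w) (hR : ∀ j, σ j u ≠ w) :
    ∃ τ, St G A F τ ∧ cov A τ u = cov A σ u + 1 ∧ (∀ x, x ≠ σ c w → cov A σ x ≤ cov A τ x) ∧
      ∀ x, cov A σ x ≤ cov A τ x + 1 := by
  classical
  have huw : u ≠ w := a.ne
  let s : V → V := fun x => if x = u then w else if x = w then u else if x = σ c w then x
    else σ c x
  have su : s u = w := by simp [s]
  have sw : s w = u := by simp [s, huw.symm]
  have sp : ∀ x, x ≠ u → x ≠ w → x = σ c w → s x = x := by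
    intro x h1 h2 h3; simp only [s, if_neg h1, if_neg h2, if_pos h3]
  have so : ∀ x, x ≠ u → x ≠ w → x ≠ σ c w → s x = σ c x := by
    intro x h1 h2 h3; simp only [s, if_neg h1, if_neg h2, if_neg h3]
  have key : ∀ j, j ≠ c → ∀ x, s x ≠ x → s x ≠ σ j x := by
    intro j hj x hx e
    by_cases h1 : x = u
    · rw [h1, su] at e; exact hR j e.symm
    by_cases h2 : x = w
    · rw [h2, sw] at e; exact hR j (h.inv.flip e.symm)
    by_cases h3 : x = σ c w
    · exact hx (sp x h1 h2 h3)
    rw [so x h1 h2 h3] at e hx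
    exact hj (h.uq _ _ _ hx e).symm
  refine ⟨Function.update σ c s, ⟨?_, ?_, ?_⟩, ?_, ?_, ?_⟩
  · intro j x
    by_cases hj : j = c
    · subst hj
      rw [Function.update_self]
      by_cases h1 : x = u
      · rw [h1, su, sw]
      by_cases h2 : x = w
      · rw [h2, sw, su]
      by_cases h3 : x = σ j w
      · rw [sp x h1 h2 h3, sp x h1 h2 h3]
      rw [so x h1 h2 h3, so]
      · exact h.inv _ _
      · intro e; exact h1 ((h.inv.flip e).symm.trans hu)
      · intro e; exact h3 (h.inv.flip e).symm
      · intro e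
        apply h2
        rw [← h.inv j x, e, h.inv]
    · rw [Function.update_of_ne hj]; exact h.inv _ _
  · intro j x
    by_cases hj : j = c
    · subst hj
      rw [Function.update_self]
      intro hx
      by_cases h1 : x = u
      · rw [h1, su]; exact ⟨hc, a, hFu⟩
      by_cases h2 : x = w
      · rw [h2, sw]; exact ⟨hc, a.symm, hFw⟩
      by_cases h3 : x = σ j w
      · exact absurd (sp x h1 h2 h3) hx
      rw [so x h1 h2 h3] at hx ⊢
      exact h.ok _ _ hx
    · rw [Function.update_of_ne hj]; exact h.ok _ _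
  · intro j j' x hx e
    by_cases hj : j = c
    · by_cases hj' : j' = c
      · rw [hj, hj']
      · subst hj
        rw [Function.update_self] at hx e
        rw [Function.update_of_ne hj'] at e
        exact absurd e (key j' hj' x hx)
    · by_cases hj' : j' = c
      · subst hj'
        rw [Function.update_of_ne hj] at hx e
        rw [Function.update_self] at e
        exact absurd e.symm (key j hj x (e ▸ hx))
      · rw [Function.update_of_ne hj] at hx e
        rw [Function.update_of_ne hj'] at e
        exact h.uq _ _ _ hx e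
  · unfold cov
    rw [← Finset.card_insert_of_notMem (a := c) (by simp [hu])]
    congr 1
    ext j
    by_cases hj : j = c
    · subst hj
      simp [hc, su, huw.symm]
    · simp [hj]
  · intro x hx
    unfold cov
    apply Finset.card_le_card
    intro j hj0
    obtain ⟨j1, j2⟩ := Finset.mem_filter.1 hj0
    refine Finset.mem_filter.2 ⟨j1, ?_⟩
    by_cases hj : j = c
    · subst hj
      rw [Function.update_self]
      by_cases h1 : x = u
      · rw [h1, su]; exact huw.symm
      by_cases h2 : x = w
      · rw [h2, sw]; exact huw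
      rw [so x h1 h2 hx]; exact j2
    · rw [Function.update_of_ne hj]; exact j2
  · intro x
    unfold cov
    refine le_trans (Finset.card_le_card ?_) (Finset.card_insert_le c _)
    intro j hj0
    obtain ⟨j1, j2⟩ := Finset.mem_filter.1 hj0
    by_cases hj : j = c
    · rw [hj]; exact Finset.mem_insert_self _ _
    · refine Finset.mem_insert_of_mem (Finset.mem_filter.2 ⟨j1, ?_⟩)
      rw [Function.update_of_ne hj]; exact j2

noncomputable def pot [Fintype V] (A : Finset ℕ) (g : V → ℕ) (t : ℕ) (σ : ℕ → V → V) : ℕ :=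
  ∑ x, (g x - (cov A σ x + t))

open Classical in
noncomputable def mult [Fintype V] (F : V → Finset ℕ) (c : ℕ) : ℕ :=
  (Finset.univ.filter fun x => c ∈ F x).card

lemma sum_mult [Fintype V] (F : V → Finset ℕ) (A : Finset ℕ) :
    ∑ c ∈ A, mult F c = ∑ x, (F x ∩ A).card := by
  classical
  unfold mult
  simp only [Finset.card_filter]
  rw [Finset.sum_comm]
  apply Finset.sum_congr rfl
  intro x _
  rw [← Finset.card_filter]
  congr 1
  ext c
  simp [and_comm]

lemma St.improve [Fintype V] {G : SimpleGraph V} [DecidableRel G.Adj] {A : Finset ℕ}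
    {F : V → Finset ℕ} {σ : ℕ → V → V} (h : St G A F σ) (d T H : ℕ) (l : V → ℕ)
    (hT : T + A.card = d + 2) (hH : ∑ x, (F x ∩ A).card = H) (f2 : 2 * A.card ≤ H)
    (f3 : ∀ x, l x + H ≤ d) (f4 : ∀ x, G.degree x + l x + (F x ∩ A).card ≤ d)
    (hp : pot A (fun x => G.degree x + l x) T σ ≤ 2 * H) (u : V)
    (hu : cov A σ u + T + 6 < G.degree u + l u) :
    ∃ τ, St G A F τ ∧
      pot A (fun x => G.degree x + l x) T τ ≤ pot A (fun x => G.degree x + l x) T σ ∧
      pot A (fun x => G.degree x + l x) (T + 6) τ < pot A (fun x => G.degree x + l x) (T + 6) σ := by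
  classical
  set Df := A.filter fun c => c ∉ F u ∧ σ c u = u with hDf
  have d1 : A.card ≤ Df.card + (F u ∩ A).card + cov A σ u := by
    unfold cov
    refine le_trans (Finset.card_le_card ?_) ((Finset.card_union_le _ _).trans
      (Nat.add_le_add_right (Finset.card_union_le _ _) _))
    intro c hc
    simp only [hDf, Finset.mem_union, Finset.mem_filter, Finset.mem_inter]
    tauto
  have d2 : 9 ≤ Df.card := by
    have := f4 u
    omega
  obtain ⟨c, hc, hm⟩ : ∃ c ∈ Df, 9 * mult F c ≤ H := by
    by_contra hn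
    push Not at hn
    have k1 : ∑ _c ∈ Df, (H + 1) ≤ ∑ c ∈ Df, 9 * mult F c :=
      Finset.sum_le_sum fun c hc => hn c hc
    have k2 : ∑ c ∈ Df, mult F c ≤ ∑ c ∈ A, mult F c :=
      Finset.sum_le_sum_of_subset (Finset.filter_subset _ _)
    rw [sum_mult F A, hH] at k2
    rw [← Finset.mul_sum, Finset.sum_const, smul_eq_mul] at k1
    have k3 : 9 * (H + 1) ≤ Df.card * (H + 1) := Nat.mul_le_mul_right _ d2
    omega
  obtain ⟨c1, c2, c3⟩ : c ∈ A ∧ c ∉ F u ∧ σ c u = u := by simpa [hDf] using hc
  set Wc := (G.neighborFinset u).filter fun w => (∀ j, σ j u ≠ w) ∧ c ∉ F w with hWc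
  have w1 : G.degree u ≤ Wc.card + cov A σ u + mult F c := by
    have k : ((A.filter fun j => σ j u ≠ u).image fun j => σ j u).card ≤ cov A σ u := by
      unfold cov
      convert Finset.card_image_le
    have k' : (Finset.univ.filter fun x => c ∈ F x).card = mult F c := by
      unfold mult; congr
    have sub : G.neighborFinset u ⊆ (Wc ∪ (A.filter fun j => σ j u ≠ u).image fun j => σ j u) ∪
        Finset.univ.filter fun x => c ∈ F x := by
      intro w hw
      have a : G.Adj u w := by simpa using hw
      by_cases k1 : c ∈ F w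
      · exact Finset.mem_union_right _ (by simpa using k1)
      apply Finset.mem_union_left
      by_cases k2 : ∀ j, σ j u ≠ w
      · exact Finset.mem_union_left _ (Finset.mem_filter.2 ⟨hw, k2, k1⟩)
      · push Not at k2
        obtain ⟨j, hj⟩ := k2
        have : σ j u ≠ u := by rw [hj]; exact a.ne.symm
        exact Finset.mem_union_right _ (Finset.mem_image.2
          ⟨j, Finset.mem_filter.2 ⟨(h.ok j u this).1, this⟩, hj⟩)
    have k3 := (Finset.card_le_card sub).trans ((Finset.card_union_le _ _).trans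
      (Nat.add_le_add_right (Finset.card_union_le _ _) _))
    rw [SimpleGraph.card_neighborFinset_eq_degree] at k3
    omega
  set Bd := Finset.univ.filter fun x => cov A σ x + T + 6 ≤ G.degree x + l x with hBd
  have b1 : 6 * Bd.card ≤ 2 * H := by
    refine le_trans ?_ hp
    unfold pot
    have k1 : ∑ _x ∈ Bd, 6 ≤ ∑ x ∈ Bd, (G.degree x + l x - (cov A σ x + T)) := by
      apply Finset.sum_le_sum
      intro x hx
      have := (Finset.mem_filter.1 hx).2
      omega
    rw [Finset.sum_const, smul_eq_mul, mul_comm] at k1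
    exact k1.trans (Finset.sum_le_sum_of_subset (Finset.subset_univ _))
  obtain ⟨w, hw, hw'⟩ : ∃ w ∈ Wc, σ c w ∉ Bd := by
    by_contra hn
    push Not at hn
    have k : Wc.card ≤ Bd.card := by
      apply Finset.card_le_card_of_injOn (σ c)
      · intro w hw; exact hn w hw
      · intro x _ y _ e
        rw [← h.inv c x, e, h.inv]
    have := f3 u
    omega
  obtain ⟨w2, w3, w4⟩ := Finset.mem_filter.1 hw
  have a : G.Adj u w := by simpa using w2
  have w5 : G.degree (σ c w) + l (σ c w) < cov A σ (σ c w) + T + 6 := by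
    by_contra hn
    exact hw' (Finset.mem_filter.2 ⟨Finset.mem_univ _, by omega⟩)
  obtain ⟨τ, t1, t2, t3, t4⟩ := h.move c1 a c3 c2 w4 w3
  refine ⟨τ, t1, ?_, ?_⟩
  · unfold pot
    have k : ∑ x, ((G.degree x + l x - (cov A τ x + T)) + if x = u then 1 else 0) ≤
        ∑ x, ((G.degree x + l x - (cov A σ x + T)) + if x = σ c w then 1 else 0) := by
      apply Finset.sum_le_sum
      intro x _
      by_cases h1 : x = u
      · subst h1
        rw [if_pos rfl]
        omega
      · rw [if_neg h1]
        by_cases h2 : x = σ c w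
        · rw [if_pos h2]
          have := t4 x
          omega
        · have := t3 x h2
          omega
    rw [Finset.sum_add_distrib, Finset.sum_add_distrib, Finset.sum_ite_eq', Finset.sum_ite_eq',
      if_pos (Finset.mem_univ _), if_pos (Finset.mem_univ _)] at k
    exact Nat.le_of_add_le_add_right k
  · unfold pot
    apply Finset.sum_lt_sum
    · intro x _
      beta_reduce
      by_cases h2 : x = σ c w
      · have := t4 x
        rw [← h2] at w5
        omega
      · have := t3 x h2
        omega
    · refine ⟨u, Finset.mem_univ _, ?_⟩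
      beta_reduce
      omega

lemma settle [Fintype V] {G : SimpleGraph V} [DecidableRel G.Adj] {A : Finset ℕ}
    {F : V → Finset ℕ} (d T H : ℕ) (l : V → ℕ)
    (hT : T + A.card = d + 2) (hH : ∑ x, (F x ∩ A).card = H) (f2 : 2 * A.card ≤ H)
    (f3 : ∀ x, l x + H ≤ d) (f4 : ∀ x, G.degree x + l x + (F x ∩ A).card ≤ d) (n : ℕ) :
    ∀ σ : ℕ → V → V, St G A F σ → pot A (fun x => G.degree x + l x) T σ ≤ 2 * H →
      pot A (fun x => G.degree x + l x) (T + 6) σ < n →
      ∃ τ, St G A F τ ∧ ∀ u, G.degree u + l u ≤ cov A τ u + T + 6 := by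
  induction n with
  | zero => intro σ _ _ h; omega
  | succ n ih =>
    intro σ h hp hn
    by_cases k : ∀ u, G.degree u + l u ≤ cov A σ u + T + 6
    · exact ⟨σ, h, k⟩
    push Not at k
    obtain ⟨u, hu⟩ := k
    obtain ⟨τ, t1, t2, t3⟩ := h.improve d T H l hT hH f2 f3 f4 hp u hu
    exact ih τ t1 (t2.trans hp) (by omega)

end Pool.Agent.H.MP_d14d18_co
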