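import Pool.Agent.H.MP_d14d18_co.C

set_option autoImplicit false

namespace Pool.Agent.H.MP_d14d18_co

open Finset Pool.Agent.H.MP_7b5b6d_co

variable {V : Type*}

lemma matching (Q : ℕ → V → V → Prop) (hs : ∀ c x y, Q c x y → Q c y x)
    (hf : ∀ c x y z, Q c x y → Q c x z → y = z) :
    ∃ σ : ℕ → V → V, Invo σ ∧ (∀ c x y, Q c x y → σ c x = y) ∧
      ∀ c x, σ c x ≠ x → Q c x (σ c x) := by
  classical
  let σ : ℕ → V → V := fun c x => if h : ∃ y, Q c x y then h.choose else x
  have k1 : ∀ c x y, Q c x y → σ c x = y := by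
    intro c x y q
    have h : ∃ y, Q c x y := ⟨y, q⟩
    have e : σ c x = h.choose := dif_pos h
    rw [e]; exact hf _ _ _ _ h.choose_spec q
  have k2 : ∀ c x, σ c x ≠ x → Q c x (σ c x) := by
    intro c x hx
    by_cases h : ∃ y, Q c x y
    · obtain ⟨y, q⟩ := h
      rw [k1 c x y q]; exact q
    · exact absurd (dif_neg h) hx
  refine ⟨σ, ?_, k1, k2⟩
  intro c x
  by_cases hx : σ c x = x
  · rw [hx, hx]
  · exact k1 _ _ _ (hs _ _ _ (k2 c x hx))

lemma initial [Fintype V] (G : SimpleGraph V) [DecidableRel G.Adj] (A C : Finset ℕ)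
    (F : V → Finset ℕ) (φ : V → V → ℕ) (hφ : PC G C φ)
    (hav : ∀ u v, G.Adj u v → φ u v ∉ F u \ A) (hl : ∀ u, F u \ A ⊆ C) (T : ℕ)
    (hT : (C \ A).card ≤ T) :
    ∃ σ, St G A F σ ∧
      pot A (fun x => G.degree x + (F x \ A).card) T σ ≤ 2 * ∑ x, (F x ∩ A).card := by
  classical
  obtain ⟨σ, s1, s2, s3⟩ := matching
    (fun c x y => G.Adj x y ∧ φ x y = c ∧ c ∈ A ∧ c ∉ F x ∧ c ∉ F y)
    (fun c x y q => ⟨q.1.symm, (hφ.symm _ _).trans q.2.1, q.2.2.1, q.2.2.2.2, q.2.2.2.1⟩)
    (fun c x y z q r => hφ.inj _ _ _ q.1 r.1 (q.2.1.trans r.2.1.symm))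
  refine ⟨σ, ⟨s1, ?_, ?_⟩, ?_⟩
  · intro c u hu
    have q := s3 c u hu
    exact ⟨q.2.2.1, q.1, q.2.2.2.1⟩
  · intro c c' u hu e
    have q := s3 c u hu
    have q' := s3 c' u (e ▸ hu)
    rw [← q.2.1, ← q'.2.1, e]
  have inj : ∀ x (S : Finset V) (B : Finset ℕ), (∀ y ∈ S, G.Adj x y ∧ φ x y ∈ B) →
      S.card ≤ B.card := by
    intro x S B hS
    apply Finset.card_le_card_of_injOn (φ x)
    · intro y hy; exact (hS y hy).2
    · intro y hy z hz e
      exact hφ.inj _ _ _ (hS y hy).1 (hS z hz).1 e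
  let far : V → ℕ := fun x =>
    (Finset.univ.filter fun y => G.Adj x y ∧ φ x y ∈ F y ∩ A).card
  have far1 : ∑ x, far x ≤ ∑ x, (F x ∩ A).card := by
    simp only [far, Finset.card_filter]
    rw [Finset.sum_comm]
    apply Finset.sum_le_sum
    intro y _
    rw [← Finset.card_filter]
    apply inj y
    intro x hx
    have := (Finset.mem_filter.1 hx).2
    exact ⟨this.1.symm, hφ.symm x y ▸ this.2⟩
  have pt : ∀ x, G.degree x + (F x \ A).card - (cov A σ x + T) ≤ (F x ∩ A).card + far x := by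
    intro x
    set N1 := (G.neighborFinset x).filter fun y => φ x y ∉ A with h1
    set N2 := (G.neighborFinset x).filter fun y => φ x y ∈ A ∧ φ x y ∉ F x ∧ φ x y ∉ F y with h2
    set N3 := (G.neighborFinset x).filter fun y => φ x y ∈ F x ∩ A with h3
    have sub : G.neighborFinset x ⊆ ((N1 ∪ N2) ∪ N3) ∪
        Finset.univ.filter fun y => G.Adj x y ∧ φ x y ∈ F y ∩ A := by
      intro y hy
      have a : G.Adj x y := by simpa using hy
      simp only [h1, h2, h3, Finset.mem_union, Finset.mem_filter, Finset.mem_inter,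
        Finset.mem_univ, true_and]
      tauto
    have k0 : G.degree x ≤ N1.card + N2.card + N3.card + far x := by
      rw [← SimpleGraph.card_neighborFinset_eq_degree]
      refine (Finset.card_le_card sub).trans ((Finset.card_union_le _ _).trans ?_)
      refine Nat.add_le_add_right ((Finset.card_union_le _ _).trans ?_) _
      exact Nat.add_le_add_right (Finset.card_union_le _ _) _
    have k1 : N1.card ≤ ((C \ A) \ (F x \ A)).card := by
      apply inj x
      intro y hy
      obtain ⟨y1, y2⟩ := Finset.mem_filter.1 hy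
      have a : G.Adj x y := by simpa using y1
      exact ⟨a, Finset.mem_sdiff.2 ⟨Finset.mem_sdiff.2 ⟨hφ.mem _ _ a, y2⟩, hav _ _ a⟩⟩
    have k1' : ((C \ A) \ (F x \ A)).card + (F x \ A).card = (C \ A).card := by
      apply Finset.card_sdiff_add_card_eq_card
      intro c hc
      exact Finset.mem_sdiff.2 ⟨hl x hc, (Finset.mem_sdiff.1 hc).2⟩
    have k2 : N2.card ≤ cov A σ x := by
      unfold cov
      apply inj x
      intro y hy
      obtain ⟨y1, y2⟩ := Finset.mem_filter.1 hy
      have a : G.Adj x y := by simpa using y1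
      refine ⟨a, Finset.mem_filter.2 ⟨y2.1, ?_⟩⟩
      rw [s2 (φ x y) x y ⟨a, rfl, y2⟩]
      exact a.ne.symm
    have k3 : N3.card ≤ (F x ∩ A).card := by
      apply inj x
      intro y hy
      obtain ⟨y1, y2⟩ := Finset.mem_filter.1 hy
      exact ⟨by simpa using y1, y2⟩
    omega
  unfold pot
  have := Finset.sum_le_sum fun x (_ : x ∈ (Finset.univ : Finset V)) => pt x
  rw [Finset.sum_add_distrib] at this
  beta_reduce
  omega

lemma finish [Fintype V] (G : SimpleGraph V) [DecidableRel G.Adj] (A C : Finset ℕ)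
    (F : V → Finset ℕ) (τ : ℕ → V → V) (h : St G A F τ) (D : ℕ) (hAC : A ⊆ C)
    (hFC : ∀ v, F v ⊆ C) (hdis : ∀ u v c, c ∈ F u \ A → c ∈ F v \ A → u = v)
    (hdeg : ∀ u, G.degree u + (F u \ A).card ≤ cov A τ u + D)
    (hsum : ∑ v, (F v \ A).card ≤ D) (hC : D + 2 ≤ (C \ A).card) :
    ∃ c, PC G C c ∧ ∀ u v, G.Adj u v → c u v ∉ F u := by
  classical
  let G2 : SimpleGraph V :=
    { Adj := fun x y => G.Adj x y ∧ ∀ c, τ c x ≠ y
      symm := ⟨fun x y a => ⟨a.1.symm, fun c e => a.2 c (h.inv.flip e)⟩⟩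
      loopless := ⟨fun x a => G.irrefl a.1⟩ }
  have d2 : ∀ u, G2.degree u + cov A τ u ≤ G.degree u := by
    intro u
    have k : ((A.filter fun j => τ j u ≠ u).image fun j => τ j u).card = cov A τ u := by
      unfold cov
      rw [Finset.card_image_of_injOn]
      intro j hj j' _ e
      exact h.uq _ _ _ (Finset.mem_filter.1 hj).2 e
    rw [← k, ← SimpleGraph.card_neighborFinset_eq_degree,
      ← SimpleGraph.card_neighborFinset_eq_degree, ← Finset.card_union_of_disjoint]
    · apply Finset.card_le_card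
      intro w hw
      rw [SimpleGraph.mem_neighborFinset]
      rcases Finset.mem_union.1 hw with a | a
      · rw [SimpleGraph.mem_neighborFinset] at a
        exact a.1
      · obtain ⟨j, hj, rfl⟩ := Finset.mem_image.1 a
        exact (h.ok j u (Finset.mem_filter.1 hj).2).2.1
    · rw [Finset.disjoint_left]
      intro w a b
      rw [SimpleGraph.mem_neighborFinset] at a
      obtain ⟨j, _, e⟩ := Finset.mem_image.1 b
      exact a.2 j e
  obtain ⟨φ, p1, p2⟩ := distinct G2 (C \ A) (fun v => F v \ A) D hdis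
    (fun v => Finset.sdiff_subset_sdiff (hFC v) (Finset.Subset.refl _))
    (fun v => by have := d2 v; have := hdeg v; omega) hsum hC
  let col : V → V → ℕ := fun x y =>
    if (∀ c, τ c x ≠ y) then φ x y else ∑ c ∈ A.filter (fun c => τ c x = y), c
  have c1 : ∀ x y, G.Adj x y → (G2.Adj x y ∧ col x y = φ x y) ∨
      (col x y ∈ A ∧ τ (col x y) x = y) := by
    intro x y a
    by_cases k : ∀ c, τ c x ≠ y
    · exact Or.inl ⟨⟨a, k⟩, if_pos k⟩
    · right
      have e : col x y = ∑ c ∈ A.filter (fun c => τ c x = y), c := if_neg k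
      push Not at k
      obtain ⟨j, hj⟩ := k
      have hj' : τ j x ≠ x := by rw [hj]; exact a.ne.symm
      have : A.filter (fun c => τ c x = y) = {j} := by
        ext c
        simp only [Finset.mem_filter, Finset.mem_singleton]
        constructor
        · intro hc
          exact (h.uq _ _ _ hj' (hj.trans hc.2.symm)).symm
        · rintro rfl
          exact ⟨(h.ok _ _ hj').1, hj⟩
      rw [e, this, Finset.sum_singleton]
      exact ⟨(h.ok _ _ hj').1, hj⟩
  refine ⟨col, ⟨?_, ?_, ?_⟩, ?_⟩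
  · intro x y
    have e1 : (∀ c, τ c x ≠ y) ↔ (∀ c, τ c y ≠ x) :=
      ⟨fun k c e => k c (h.inv.flip e), fun k c e => k c (h.inv.flip e)⟩
    have e2 : A.filter (fun c => τ c x = y) = A.filter (fun c => τ c y = x) := by
      apply Finset.filter_congr
      intro c _
      exact ⟨fun e => h.inv.flip e, fun e => h.inv.flip e⟩
    by_cases k : ∀ c, τ c x ≠ y
    · have a1 : col x y = φ x y := if_pos k
      have a2 : col y x = φ y x := if_pos (e1.1 k)
      rw [a1, a2, p1.symm]
    · have a1 : col x y = _ := if_neg k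
      have a2 : col y x = _ := if_neg (fun k' => k (e1.2 k'))
      rw [a1, a2, e2]
  · intro x y a
    rcases c1 x y a with ⟨b, e⟩ | ⟨b, _⟩
    · rw [e]; exact (Finset.mem_sdiff.1 (p1.mem _ _ b)).1
    · exact hAC b
  · intro x y z a b e
    rcases c1 x y a with ⟨a1, a2⟩ | ⟨a1, a2⟩ <;> rcases c1 x z b with ⟨b1, b2⟩ | ⟨b1, b2⟩
    · exact p1.inj _ _ _ a1 b1 (by rw [← a2, ← b2, e])
    · exact absurd (a2 ▸ e ▸ b1) (Finset.mem_sdiff.1 (p1.mem _ _ a1)).2
    · exact absurd (b2 ▸ e ▸ a1) (Finset.mem_sdiff.1 (p1.mem _ _ b1)).2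
    · rw [← a2, ← b2, e]
  · intro x y a hF
    rcases c1 x y a with ⟨b, e⟩ | ⟨_, e⟩
    · rw [e] at hF
      exact p2 x y b (Finset.mem_sdiff.2 ⟨hF, (Finset.mem_sdiff.1 (p1.mem _ _ b)).2⟩)
    · exact (h.ok _ x (by rw [e]; exact a.ne.symm)).2.2 hF

theorem core [Fintype V] (G : SimpleGraph V) [DecidableRel G.Adj] (d : ℕ)
    (F : V → Finset ℕ) (hFC : ∀ v, F v ⊆ Finset.range (d + 10))
    (hdeg : ∀ v, G.degree v + (F v).card ≤ d) (hsum : ∑ v, (F v).card ≤ d) :
    ∃ c, PC G (Finset.range (d + 10)) c ∧ ∀ u v, G.Adj u v → c u v ∉ F u := by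
  classical
  set A := (Finset.range (d + 10)).filter fun c => 2 ≤ mult F c with hA
  have hAC : A ⊆ Finset.range (d + 10) := Finset.filter_subset _ _
  set H := ∑ x, (F x ∩ A).card with hH
  have f2 : 2 * A.card ≤ H := by
    rw [hH, ← sum_mult, mul_comm, ← smul_eq_mul, ← Finset.sum_const]
    exact Finset.sum_le_sum fun c hc => (Finset.mem_filter.1 hc).2
  have sp : ∀ x, (F x \ A).card + (F x ∩ A).card = (F x).card :=
    fun x => Finset.card_sdiff_add_card_inter _ _
  have f1 : ∑ x, (F x \ A).card + H ≤ d := by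
    rw [hH, ← Finset.sum_add_distrib]
    simpa only [sp] using hsum
  have f3 : ∀ x, (F x \ A).card + H ≤ d := by
    intro x
    have : (F x \ A).card ≤ ∑ x, (F x \ A).card :=
      Finset.single_le_sum (f := fun x => (F x \ A).card) (fun _ _ => Nat.zero_le _)
        (Finset.mem_univ x)
    omega
  have f4 : ∀ x, G.degree x + (F x \ A).card + (F x ∩ A).card ≤ d := by
    intro x
    have := sp x
    have := hdeg x
    omega
  have hdis : ∀ u v c, c ∈ F u \ A → c ∈ F v \ A → u = v := by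
    intro u v c hu hv
    by_contra huv
    obtain ⟨u1, u2⟩ := Finset.mem_sdiff.1 hu
    apply u2
    refine Finset.mem_filter.2 ⟨hFC u u1, ?_⟩
    unfold mult
    rw [← Finset.card_pair huv]
    apply Finset.card_le_card
    intro x hx
    rcases Finset.mem_insert.1 hx with rfl | hx
    · simpa using u1
    · rw [Finset.mem_singleton.1 hx]
      simpa using (Finset.mem_sdiff.1 hv).1
  obtain ⟨C0, c1, c2⟩ := Infinite.exists_superset_card_eq
    (A ∪ Finset.univ.biUnion fun x => F x \ A) (d + 2) (by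
      refine (Finset.card_union_le _ _).trans ?_
      have : (Finset.univ.biUnion fun x => F x \ A).card ≤ ∑ x, (F x \ A).card :=
        Finset.card_biUnion_le
      omega)
  have hl : ∀ u, F u \ A ⊆ C0 := by
    intro u c hc
    exact c1 (Finset.mem_union_right _ (Finset.mem_biUnion.2 ⟨u, Finset.mem_univ _, hc⟩))
  have hA0 : A ⊆ C0 := fun c hc => c1 (Finset.mem_union_left _ hc)
  obtain ⟨φ, p1, p2⟩ := distinct G C0 (fun v => F v \ A) d hdis hl
    (fun v => by have := f4 v; omega) (by omega) c2.ge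
  have hT : (C0 \ A).card + A.card = d + 2 := by
    rw [Finset.card_sdiff_add_card_eq_card hA0, c2]
  obtain ⟨σ, s1, s2⟩ := initial G A C0 F φ p1 p2 hl _ le_rfl
  obtain ⟨τ, t1, t2⟩ := settle d (C0 \ A).card H (fun x => (F x \ A).card) hT hH.symm f2 f3 f4
    _ σ s1 s2 (Nat.lt_succ_self _)
  have hC : (Finset.range (d + 10) \ A).card + A.card = d + 10 := by
    rw [Finset.card_sdiff_add_card_eq_card hAC, Finset.card_range]
  exact finish G A _ F τ t1 ((C0 \ A).card + 6) hAC hFC hdis
    (fun u => by have := t2 u; omega) (by omega) (by omega)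

end Pool.Agent.H.MP_d14d18_co
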